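import Pool.Agent.Y805.Mom2
import Pool.Agent.Y805.Mom3

/-!
# Moment-curve systems without the Lefschetz property in arbitrarily high dimension

Over every infinite field of positive characteristic the moment-curve system fails for PL spheres
of arbitrarily high dimension.
-/

set_option autoImplicit false

namespace Pool.Agent.Results.MP_487945_co.HighDimensions

open Finset Pool.Agent.Results.MP_487945_co.PositiveChar Pool.Agent.Y805.Mom

universe u

/-- There are a PL `(d-1)`-sphere with `d + 2` vertices, obtained from the boundary of a simplex by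
stellar subdivisions, and pairwise distinct nonzero parameters in `k` such that the Artinian
reduction given by the moment-curve system does not have the Lefschetz property; in fact
`ℓ^d = 0` for all `ℓ ∈ A^1`. -/
def FailsIn (k : Type u) [Field k] (d : ℕ) : Prop :=
  ∃ (V : Type) (_ : Fintype V) (_ : DecidableEq V) (Δ : Set (Finset V)) (t : V → k),
    Fintype.card V = d + 2 ∧ StellarSphere d Δ ∧ Function.Injective t ∧ (∀ v, t v ≠ 0) ∧
    (∀ ℓ ∈ gr Δ (momentCurve d t) 1, ℓ ^ d = 0) ∧ ¬ HasLefschetz Δ (momentCurve d t)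

/-- Over every infinite field of positive characteristic `p` the moment-curve system fails in
arbitrarily high dimension: for every `i ≥ 1` it fails for some PL `(d-1)`-sphere with
`d = 4 ^ i` if `p = 2`, `d = 2 * 3 ^ i` if `p = 3`, and `d = c p ^ i + (p - 3 - c)` for every
`1 ≤ c ≤ p - 3` if `p ≥ 5`. -/
theorem result (k : Type u) [Field k] [Infinite k] (p : ℕ) (hp : p.Prime) [CharP k p] (i : ℕ)
    (hi : 1 ≤ i) :
    (p = 2 → FailsIn k (4 ^ i)) ∧ (p = 3 → FailsIn k (2 * 3 ^ i)) ∧
    (5 ≤ p → ∀ c : ℕ, 1 ≤ c → c + 3 ≤ p → FailsIn k (c * p ^ i + (p - 3 - c))) := by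
  refine ⟨?_, ?_, ?_⟩
  · rintro rfl
    obtain ⟨t, ht, ht0, hk⟩ := case_two' (k := k) i
    have hr := rr_pos 4 hi
    have hq := rr_eq 3 i
    norm_num at hq
    have hd : Fintype.card (Fin 3 ⊕ (Fin (rr 4 i) × Fin 3)) = 4 ^ i + 2 := by
      rw [Fintype.card_sum, Fintype.card_prod, Fintype.card_fin, Fintype.card_fin]
      omega
    have hR : 2 ≤ Fintype.card (Fin (rr 4 i) × Fin 3) := by
      rw [Fintype.card_prod, Fintype.card_fin, Fintype.card_fin]
      omega
    have h := core (d := 4 ^ i) (N := 4 ^ i) (by simp) hR hd le_rfl t ht ht0 hk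
    exact ⟨_, inferInstance, inferInstance, joinBdry (Fin 3) (Fin (rr 4 i) × Fin 3), t, hd,
      joinBdry_sphere (by simp) hR hd, ht, ht0, h.1, h.2⟩
  · rintro rfl
    obtain ⟨t, ht, ht0, hk⟩ := case_three' (k := k) i
    have hr := rr_pos 3 hi
    have hq := rr_eq 2 i
    norm_num at hq
    have hd : Fintype.card (Fin 4 ⊕ (Fin (rr 3 i) × Fin 4)) = 2 * 3 ^ i + 2 := by
      rw [Fintype.card_sum, Fintype.card_prod, Fintype.card_fin, Fintype.card_fin]
      omega
    have hR : 2 ≤ Fintype.card (Fin (rr 3 i) × Fin 4) := by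
      rw [Fintype.card_prod, Fintype.card_fin, Fintype.card_fin]
      omega
    have h := core (d := 2 * 3 ^ i) (N := 2 * 3 ^ i) (by simp) hR hd le_rfl t ht ht0 hk
    exact ⟨_, inferInstance, inferInstance, joinBdry (Fin 4) (Fin (rr 3 i) × Fin 4), t, hd,
      joinBdry_sphere (by simp) hR hd, ht, ht0, h.1, h.2⟩
  · intro h5 c hc hc3
    have hfact : Fact p.Prime := ⟨hp⟩
    obtain ⟨t, ht, ht0, hk⟩ := case_large' (k := k) p h5 c i hc
    have hr := rr_pos p hi
    obtain ⟨q, rfl⟩ : ∃ q, p = q + 1 := ⟨p - 1, by omega⟩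
    have hq := rr_eq q i
    have hcr : 1 ≤ c * rr (q + 1) i := Nat.mul_pos (by omega) (by omega)
    have hcard : Fintype.card (ZMod (q + 1))ˣ = q := by
      rw [ZMod.card_units (q + 1)]; rfl
    have hL : 2 ≤ Fintype.card (ZMod (q + 1))ˣ := by rw [hcard]; omega
    have hR : 2 ≤ Fintype.card (Fin (c * rr (q + 1) i) × (ZMod (q + 1))ˣ) := by
      rw [Fintype.card_prod, Fintype.card_fin, hcard]
      nlinarith
    have hd : Fintype.card ((ZMod (q + 1))ˣ ⊕ (Fin (c * rr (q + 1) i) × (ZMod (q + 1))ˣ)) =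
        (c * (q + 1) ^ i + (q + 1 - 3 - c)) + 2 := by
      rw [Fintype.card_sum, Fintype.card_prod, Fintype.card_fin, hcard, ← hq]
      have e : c * (q * rr (q + 1) i + 1) = c * rr (q + 1) i * q + c := by ring
      rw [e]
      omega
    have h := core (d := c * (q + 1) ^ i + (q + 1 - 3 - c)) (N := c * (q + 1) ^ i) hL hR hd
      (by omega) t ht ht0 hk
    exact ⟨_, inferInstance, inferInstance,
      joinBdry (ZMod (q + 1))ˣ (Fin (c * rr (q + 1) i) × (ZMod (q + 1))ˣ), t, hd,
      joinBdry_sphere hL hR hd, ht, ht0, h.1, h.2⟩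

end Pool.Agent.Results.MP_487945_co.HighDimensions
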