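import Pool.Agent.Y493.HL.Cosets
import Pool.Agent.Y493.HL.Small

/-!
# Moment-curve systems without the Lefschetz property in arbitrarily high dimensions

Over every infinite field of odd characteristic `p` the moment-curve systems fail to have the
Lefschetz property for PL spheres of dimension `d - 1`, for all `d` with
`s (p + 2) p ^ m ≤ d ≤ (s + 1) p ^ (m + 1) - 2`, `m ≥ 0`, `s ≥ 1`; in particular for infinitely
many `d`.

Idea of the proof. Let `q = p ^ (m + 1)`, `e = s p ^ m`, let `W` be a subgroup of order `q` of the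
field and `g` outside `W`. The sphere is the join of the boundaries of two simplices, the parameters
`t_v` are in the union of `s + 1` cosets `c g + W`, `c` in the prime field, the cosets for the
vertices of the first simplex being different from those for the second one. In terms of a suitable
basis `u, w` of `A^1` let `X` be the additive polynomial of `W` in `u, w`, and `Y = w ^ q`. Then all
forms of degree `s` in `X, Y` vanish, and `u ^ q - X` is in `w ^ (q - q / p) A^(q / p)`. It follows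
that `w ^ e ℓ ^ (s q) = 0` for all `ℓ ∈ A^1`. If `ℓ` were a Lefschetz element, then
`A^(d - e) = ℓ ^ (d - 2 e) A^e` would be killed by `w ^ e`, and this gives `ℓ ^ d = 0`, a
contradiction. For `p ≤ d ≤ 2 p - 4` the parameters are in `P ∪ g P` with `P` the set of the
nonzero elements of the prime field, as in the starting result (`d = 2 p - 4`).
-/

set_option autoImplicit false

namespace Pool.Agent.Results.MP_487945_co.InfinitelyManyDimensions

open Pool.Agent.Results.MP_487945_co.PositiveChar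

universe u

/-- Let `k` be an infinite field of positive characteristic `p`, and let `d` be a number with
`s (p + 2) p ^ m ≤ d ≤ (s + 1) p ^ (m + 1) - 2` for some `m ≥ 0` and `s ≥ 1` (for `p ≥ 3` there are
infinitely many such `d`), or with `p ≤ d ≤ 2 p - 4`, or `p = 2`, `d = 4`, or `p = 3`, `d = 6`. Then
there are a PL `(d-1)`-sphere on a set `V` of `d + 2` vertices (obtained from the boundary of a
simplex by stellar subdivisions) and pairwise distinct nonzero `t_v` such that the Artinian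
reduction given by the moment-curve system does not have the Lefschetz property. -/
theorem result (k : Type u) [Field k] [Infinite k] (p : ℕ) (hp : p.Prime) [CharP k p] (d : ℕ)
    (hd : (∃ m s : ℕ, 1 ≤ s ∧ s * (p + 2) * p ^ m ≤ d ∧ d + 2 ≤ (s + 1) * p ^ (m + 1)) ∨
      (p ≤ d ∧ d ≤ 2 * p - 4) ∨ (p = 2 ∧ d = 4) ∨ (p = 3 ∧ d = 6)) :
    ∃ (V : Type) (_ : Fintype V) (_ : DecidableEq V) (Δ : Set (Finset V)) (t : V → k),
      Fintype.card V = d + 2 ∧ StellarSphere d Δ ∧ Function.Injective t ∧ (∀ v, t v ≠ 0) ∧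
        ¬ HasLefschetz Δ (momentCurve d t) := by
  rcases hd with ⟨m, s, hs, h1, h2⟩ | ⟨h1, h2⟩ | hd
  · have hfact : Fact p.Prime := ⟨hp⟩
    have hpm : 0 < p ^ m := pow_pos hp.pos m
    have hq : p ^ (m + 1) = p * p ^ m := by rw [pow_succ, mul_comm]
    have h3 : s * (p + 2) * p ^ m = s * p ^ (m + 1) + 2 * (s * p ^ m) := by rw [hq]; ring
    have h4 : (s + 1) * p ^ (m + 1) = s * p ^ (m + 1) + p ^ (m + 1) := by ring
    have h5 : 2 * s < p := by
      have h6 : 2 * s * p ^ m < p * p ^ m := by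
        have h7 : 2 * s * p ^ m = 2 * (s * p ^ m) := by ring
        omega
      exact Nat.lt_of_mul_lt_mul_right h6
    have h6 : 3 * p ^ m ≤ p ^ (m + 1) := by
      rw [hq]
      exact Nat.mul_le_mul_right _ (by omega)
    have h7 : 1 * p ^ (m + 1) ≤ s * p ^ (m + 1) := Nat.mul_le_mul_right _ hs
    have h8 : 1 * p ^ m ≤ s * p ^ m := Nat.mul_le_mul_right _ hs
    obtain ⟨a, b, hab, ha, hb, ha1, hb1⟩ : ∃ a b, a + b = d ∧ a + 1 ≤ 1 * p ^ (m + 1) ∧
        b + 1 ≤ s * p ^ (m + 1) ∧ 1 ≤ a ∧ 1 ≤ b :=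
      ⟨p ^ (m + 1) - 1, d - (p ^ (m + 1) - 1), by omega, by omega, by omega, by omega, by omega⟩
    subst hab
    obtain ⟨t, ht, ht0, hn⟩ := Pool.Agent.Y493.HL.main2 (k := k) p m s a b 1 s le_rfl hs
      (add_comm 1 s) (by omega) ha1 hb1 ha hb (by omega)
    have hc : Fintype.card (Fin (a + 1) ⊕ Fin (b + 1)) = (a + b) + 2 := by simp; omega
    exact ⟨_, inferInstance, inferInstance, joinBdry (Fin (a + 1)) (Fin (b + 1)), t, hc,
      joinBdry_sphere (by simp; omega) (by simp; omega) hc, ht, ht0, hn⟩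
  · have hfact : Fact p.Prime := ⟨hp⟩
    have h0 := hp.two_le
    obtain ⟨a, b, hab, ha, hb, ha1, hb1⟩ : ∃ a b, a + b = d ∧ a + 1 ≤ p - 1 ∧ b + 1 ≤ p - 1 ∧
        1 ≤ a ∧ 1 ≤ b :=
      ⟨p - 2, d - (p - 2), by omega, by omega, by omega, by omega, by omega⟩
    subst hab
    obtain ⟨t, ht, ht0, hn⟩ := Pool.Agent.Y493.HL.main3 (k := k) p a b ha1 hb1 ha hb h1
    have hc : Fintype.card (Fin (a + 1) ⊕ Fin (b + 1)) = (a + b) + 2 := by simp; omega
    exact ⟨_, inferInstance, inferInstance, joinBdry (Fin (a + 1)) (Fin (b + 1)), t, hc,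
      joinBdry_sphere (by simp; omega) (by simp; omega) hc, ht, ht0, hn⟩
  · obtain ⟨V, i1, i2, d', Δ, t, e1, e2, e3, e4, e5, _, e7⟩ :=
      PositiveChar.result k p hp
    have hd' : d = (if p = 2 then 4 else if p = 3 then 6 else 2 * p - 4) := by
      rcases hd with ⟨rfl, rfl⟩ | ⟨rfl, rfl⟩ <;> simp
    rw [← hd'] at e1
    subst e1
    exact ⟨V, i1, i2, Δ, t, e2, e3, e4, e5, e7⟩

/-- Sanity check: for an odd prime the first alternative holds for infinitely many `d`. -/
theorem infinite_dims (p : ℕ) (hp : p.Prime) (hodd : p ≠ 2) :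
    {d : ℕ | ∃ m s : ℕ, 1 ≤ s ∧ s * (p + 2) * p ^ m ≤ d ∧
      d + 2 ≤ (s + 1) * p ^ (m + 1)}.Infinite := by
  have h3 : 3 ≤ p := by
    have := hp.two_le
    omega
  refine Set.infinite_of_forall_exists_gt fun n => ?_
  have h1 : n + 1 < p ^ (n + 1) := Nat.lt_pow_self (by omega)
  have h2 : p ^ (n + 1 + 1) = p * p ^ (n + 1) := by rw [pow_succ, mul_comm]
  have h4 : 3 * p ^ (n + 1) ≤ p * p ^ (n + 1) := Nat.mul_le_mul_right _ h3
  have h5 : 1 * (p + 2) * p ^ (n + 1) = p * p ^ (n + 1) + 2 * p ^ (n + 1) := by ring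
  exact ⟨2 * p ^ (n + 1 + 1) - 2, ⟨n + 1, 1, le_rfl, by omega, by omega⟩, by omega⟩

end Pool.Agent.Results.MP_487945_co.InfinitelyManyDimensions
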